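import Pool.Agent.Lib.ZQ.HqC

/-! The theorem of Hörmander off the divisor and off the zeros of a holomorphic function. -/

open scoped Classical Topology ContDiff ComplexOrder Matrix ENNReal
open Set MeasureTheory Complex Metric Filter

noncomputable section

namespace Pool.Agent.Lib.ZQ

open Pool.Agent.Lib.SV (E nsq nsq_nonneg)
open Pool.Agent.Lib.HS32 Pool.Agent.Lib.EX Pool.Agent.Lib.ZL Pool.Agent.Lib.ZL.HQ
open Pool.Agent.Lib.EXS (off)
open Pool.Agent.Lib.EXS.K32 Pool.Agent.Lib.EXS.HORM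

variable {n : ℕ} {M : Mf n} {ι : Type} [Fintype ι] [DecidableEq ι] {D : Ad M ι} {k : ι → ℤ}
  {m : ℕ} {w : D.A → E n → ℂ}

/-- The theorem of Hörmander holds on `O` for the measure `μ`, with the constant `C`. -/
def HqO (C : ℝ≥0∞) (D : Ad M ι) (μ : Measure M.X) (O : Set M.X) : Prop :=
  ∀ (ph β : M.X → ℝ) (Γ : M.X → ℂ), AEMeasurable β μ →
    (D.On O fun d z => ContDiffAt ℝ ∞ (D.rd ph d) z ∧ ContDiffAt ℝ ∞ (D.rd Γ d) z ∧
      (∀ v, 0 ≤ lv (D.rd ph d) z v) ∧ 0 ≤ D.rd β d z ∧ ∀ v : E n,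
        normSq (∑ i, star (v i) * dzb i (D.rd Γ d) z) ≤ D.rd β d z * lv (D.rd ph d) z v) →
    ∃ F : M.X → ℂ, (D.On O fun d z => HolN (D.rd F d) z) ∧
      ∫⁻ x, ENNReal.ofReal (normSq (Γ x - F x) * Real.exp (-ph x)) ∂μ ≤
        C * ∫⁻ x, ENNReal.ofReal (β x * Real.exp (-ph x)) ∂μ

variable (D) in
/-- The complement of the divisor and of the zeros of `g`. -/
def offz (g : M.X → ℂ) : Set M.X := {x | x ∈ off D ∧ g x ≠ 0}

namespace HO

variable {g : M.X → ℂ} {d : D.A} {z : E n}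

theorem g_cont (hg : D.On (off D) fun d z => HolN (D.rd g d) z) {x : M.X} (hx : x ∈ off D) :
    ContinuousAt g x := by
  obtain ⟨d, hd⟩ := ex_ch D x
  exact cont_of hd (on_at hg hd hx).self_of_nhds.continuousAt

theorem offz_open (hg : D.On (off D) fun d z => HolN (D.rd g d) z) : IsOpen (offz D g) :=
  isOpen_iff_mem_nhds.2 fun _ hx =>
    ((off_open D).eventually_mem hx.1).and ((g_cont hg hx.1).eventually_ne hx.2)

variable [M.Cpt]

theorem g_nz (hg : D.On (off D) fun d z => HolN (D.rd g d) z) (g0 : ∃ x ∈ off D, g x ≠ 0)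
    (hz : z ∈ B2 n) (hw : (D.e d).symm z ∈ off D) : ¬D.rd g d =ᶠ[𝓝 z] 0 := by
  obtain ⟨x, h1, h2⟩ := g0
  refine not_zero (off_conn D) (fun y hy => ?_) h1 h2 (tg hz) hw
  obtain ⟨b, hb⟩ := ex_ch D y
  exact ⟨_, hb, on_at hg hb hy⟩

theorem ae_offz (hg : D.On (off D) fun d z => HolN (D.rd g d) z) (g0 : ∃ x ∈ off D, g x ≠ 0)
    (d : D.A) : ∀ᵐ z, z ∈ B2 n → (D.e d).symm z ∈ offz D g := by
  have h := zero_null (offB_open (D.c d)) (f := D.rd g d)
    (fun z hz => (hg d z hz.1 ((off_symm D hz.1).2 hz.2)).self_of_nhds.differentiableWithinAt)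
    fun z hz => g_nz hg g0 hz.1 ((off_symm D hz.1).2 hz.2)
  filter_upwards [MON.off_ae (D.c d), measure_eq_zero_iff_ae_notMem.1 h] with z a b hz
  exact ⟨(off_symm D hz).2 a, fun h0 => b ⟨⟨hz, a⟩, h0⟩⟩

variable (S : Su D k m w) {O : Set M.X}

omit [M.Cpt] in
theorem et (O : Set M.X) : M.All fun e z => e.symm z ∈ S.O ∩ O →
    HolN (S.q ∘ e.symm) z ∧ (jm (S.q ∘ e.symm) z).det ≠ 0 :=
  fun e he z hz h => S.et e he z hz h.1

theorem ae_O (hO : IsOpen O) : ∀ᵐ x ∂SV.rm S.q (S.O ∩ O), x ∈ S.O ∩ O :=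
  rm_off (S.O_open.inter hO) (et S O)

theorem ρ_meas (hO : IsOpen O) : AEMeasurable S.ρ (SV.rm S.q (S.O ∩ O)) := by
  rw [← Measure.restrict_eq_self_of_ae_mem (ae_O S hO)]
  exact (((continuous_normSq.comp_continuousOn (S.H_cont.mono inter_subset_left)).rpow_const
    fun _ _ => Or.inr (by positivity)).aemeasurable
      (S.O_open.inter hO).measurableSet).ennreal_ofReal

theorem isEta (hO : IsOpen O) (ha : ∀ d, ∀ᵐ z, z ∈ B2 n → (D.e d).symm z ∈ O) :
    IsEta D k m w ((SV.rm S.q (S.O ∩ O)).withDensity S.ρ) := by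
  intro d F
  have ho := (S.O_open.inter hO).inter (D.e d).open_source
  have m1 := ((D.e d).isOpen_inter_preimage_symm ho).measurableSet
  rw [setLIntegral_withDensity_eq_setLIntegral_mul_non_measurable₀ _ (ρ_meas S hO).restrict _
    (D.e d).open_source.measurableSet (ae_of_all _ fun _ => ENNReal.ofReal_lt_top),
    setLIntegral_congr (s := (D.e d).source) (t := S.O ∩ O ∩ (D.e d).source)
      ((ae_O S hO).mono fun x hx => propext ⟨fun h => ⟨hx, h⟩, fun h => h.2⟩),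
    rm_chart (S.O_open.inter hO) (et S O) (D.mem d) ho Subset.rfl,
    setLIntegral_congr (s := B2 n)
      (t := (D.e d).target ∩ (D.e d).symm ⁻¹' (S.O ∩ O ∩ (D.e d).source))
      (((S.ae_B d).and (ha d)).mono fun z hz => propext
        ⟨fun h => ⟨tg h, ⟨hz.1 h, hz.2 h⟩, TRF.mem_src D h⟩, fun h => D.tgt d ▸ h.1⟩)]
  refine setLIntegral_congr_fun m1 fun z hz => ?_
  have h1 : z ∈ B2 n := D.tgt d ▸ hz.1
  rw [← S.den h1 hz.2.1.1, ENNReal.ofReal_mul (normSq_nonneg _), mul_assoc]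
  rfl

theorem exh (hg : D.On (off D) fun d z => HolN (D.rd g d) z) {r : ℕ} {Z : M.X → E r}
    (hZ : D.On (off D) fun d z => HolN (D.rd Z d) z)
    (hc : ∀ a : ℝ, IsCompact {x | x ∈ off D ∧ ‖Z x‖ ≤ a}) (a : ℝ) :
    IsCompact {y | y ∈ S.O ∩ offz D g ∧ nsq (Z y) + normSq (S.H y) + normSq (g y)⁻¹ ≤ a} := by
  have hK := S.exh hZ hc a
  have p : 0 < |a| + 1 := by positivity
  have c1 : ContinuousOn (fun x => normSq (g x)) {y | y ∈ S.O ∧ nsq (Z y) + normSq (S.H y) ≤ a} :=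
    fun x hx => (continuous_normSq.continuousAt.comp (g_cont hg hx.1.1)).continuousWithinAt
  have hK' := hK.of_isClosed_subset (c1.preimage_isClosed_of_isClosed hK.isClosed
    (isClosed_Ici (a := (|a| + 1)⁻¹))) inter_subset_left
  have sub : ∀ x ∈ {y | y ∈ S.O ∧ nsq (Z y) + normSq (S.H y) ≤ a} ∩
      (fun x => normSq (g x)) ⁻¹' Ici (|a| + 1)⁻¹, x ∈ S.O ∩ offz D g := fun x hx =>
    ⟨hx.1.1, hx.1.1.1, normSq_pos.1 ((inv_pos.2 p).trans_le hx.2)⟩
  have c2 : ContinuousOn (fun y => nsq (Z y) + normSq (S.H y) + normSq (g y)⁻¹)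
      (S.O ∩ offz D g) := fun x hx => by
    obtain ⟨d, hd⟩ := ex_ch D x
    exact ((cont_of (f := fun y => nsq (Z y)) hd
      (cd_nsq (on_at hZ hd hx.1.1)).continuousAt).continuousWithinAt.add
      ((continuous_normSq.comp_continuousOn S.H_cont x hx.1).mono inter_subset_left)).add
      (continuous_normSq.continuousAt.comp ((g_cont hg hx.1.1).inv₀ hx.2.2)).continuousWithinAt
  have hK'' := hK'.of_isClosed_subset ((c2.mono sub).preimage_isClosed_of_isClosed hK'.isClosed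
    (isClosed_Iic (a := a))) inter_subset_left
  refine (congrArg IsCompact (Subset.antisymm (fun y hy => ?_) fun y hy => ?_)).mp hK''
  · exact ⟨sub y hy.1, hy.2⟩
  refine ⟨⟨⟨hy.1.1, (le_add_of_nonneg_right (normSq_nonneg _)).trans hy.2⟩, ?_⟩, hy.2⟩
  have h1 : 0 < normSq (g y)⁻¹ := normSq_pos.2 (inv_ne_zero hy.1.2.2)
  have h2 : normSq (g y)⁻¹ ≤ |a| + 1 := by
    linarith [hy.2, nsq_nonneg (Z y), normSq_nonneg (S.H y), le_abs_self a]
  have h3 := inv_anti₀ h1 h2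
  rwa [map_inv₀, inv_inv] at h3

theorem solve {C : ℝ≥0∞} (hC : Hor C) (hg : D.On (off D) fun d z => HolN (D.rd g d) z)
    {r : ℕ} {Z : M.X → E r}
    (hZ : D.On (off D) fun d z => HolN (D.rd Z d) z ∧ ∀ v, fderiv ℂ (D.rd Z d) z v = 0 → v = 0)
    (hc : ∀ a : ℝ, IsCompact {x | x ∈ off D ∧ ‖Z x‖ ≤ a}) {ph β : M.X → ℝ} {Γ : M.X → ℂ}
    {μ : Measure M.X} (hμ : μ = (SV.rm S.q (S.O ∩ offz D g)).withDensity S.ρ)
    (hm : AEMeasurable β μ)
    (h : D.On (offz D g) fun d z => ContDiffAt ℝ ∞ (D.rd ph d) z ∧ ContDiffAt ℝ ∞ (D.rd Γ d) z ∧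
      (∀ v, 0 ≤ lv (D.rd ph d) z v) ∧ 0 ≤ D.rd β d z ∧ ∀ v : E n,
        normSq (∑ i, star (v i) * dzb i (D.rd Γ d) z) ≤ D.rd β d z * lv (D.rd ph d) z v)
    (fin : ∫⁻ x, ENNReal.ofReal (β x * Real.exp (-ph x)) ∂μ ≠ ⊤) :
    ∃ F : M.X → ℂ, (D.On (S.O ∩ offz D g) fun d z => DifferentiableAt ℂ (D.rd F d) z) ∧
      ∫⁻ x, ENNReal.ofReal (normSq (Γ x - F x) * Real.exp (-ph x)) ∂μ ≤
        C * ∫⁻ x, ENNReal.ofReal (β x * Real.exp (-ph x)) ∂μ := by
  subst hμ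
  have hO := offz_open hg
  have cv : ∀ t : M.X → ℝ, ∫⁻ x, ENNReal.ofReal (t x * Real.exp (-ph x))
      ∂(SV.rm S.q (S.O ∩ offz D g)).withDensity S.ρ =
      ∫⁻ x, ENNReal.ofReal (t x * Real.exp (-(ph x - 1 / m * Real.log (normSq (S.H x)))))
        ∂SV.rm S.q (S.O ∩ offz D g) := fun t => by
    rw [lintegral_withDensity_eq_lintegral_mul_non_measurable₀ _ (ρ_meas S hO)
      (ae_of_all _ fun _ => ENNReal.ofReal_lt_top)]
    exact lintegral_congr_ae ((ae_O S hO).mono fun x hx => (S.wt hx.1 _ _).symm)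
  have ac : SV.rm S.q (S.O ∩ offz D g) ≪ (SV.rm S.q (S.O ∩ offz D g)).withDensity S.ρ :=
    withDensity_absolutelyContinuous' (ρ_meas S hO)
      ((ae_O S hO).mono fun x hx => (ENNReal.ofReal_pos.2 (Real.rpow_pos_of_pos
        (normSq_pos.2 fun h => hx.1.2 (inv_eq_zero.2 h)) _)).ne')
  rw [cv] at fin
  obtain ⟨F, f1, f2⟩ := horqC hC (q := S.q)
    (ex := fun y => nsq (Z y) + normSq (S.H y) + normSq (g y)⁻¹)
    (ph := fun x => ph x - 1 / m * Real.log (normSq (S.H x))) (h := β) (Γ := Γ) (S.O_open.inter hO)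
    (Mf.allOn_of_source fun e he y hy ho => by
      have et := (et S _).at he hy ho
      rw [e.left_inv hy] at ho ⊢
      obtain ⟨d, hd⟩ := ex_ch D y
      have hz := TRF.mem_B D hd
      obtain ⟨a1, a2, -⟩ := S.H_hol hz (by rw [(D.e d).left_inv hd]; exact ho.1)
      obtain ⟨b1, b2⟩ := on_at hZ hd ho.1.1
      obtain ⟨c1, c2, c3, c4, c5⟩ := on_at h hd ho.2
      have g1 := on_at hg hd ho.1.1
      have g2 : HolN (fun z => (D.rd g d z)⁻¹) (D.e d y) := by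
        filter_upwards [g1, g1.self_of_nhds.continuousAt.eventually_ne
          (by rw [EXS.GLU.rd_e g hd]; exact ho.2.2)] with u u1 u2 using u1.inv u2
      rw [EXS.GLU.rd_e β hd] at c4 c5
      obtain ⟨l1, l2⟩ := lv_log a1 a2
      have tr := (mTR n M).2.2.2.1
      have s0 := (cd_nsq b1).add (cd_normSq (hol_cd a1))
      have s1 := s0.add (cd_normSq (hol_cd g2))
      have s2 := c1.sub (contDiffAt_const (c := (1 / m : ℝ)).mul l1)
      have e2 : ∀ v, lv (fun z => D.rd ph d z - 1 / m * Real.log (normSq (D.rd S.H d z)))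
          (D.e d y) v = lv (D.rd ph d) (D.e d y) v := fun v => by
        rw [lv_sub c1 (contDiffAt_const.mul l1), lv_mul l1, l2, mul_zero, sub_zero]
      refine ⟨et.1, et.2, (tr ℝ _).2.1 _ (D.mem d) e he y hd hy s1,
        (tr ℝ _).2.1 _ (D.mem d) e he y hd hy s2, (tr ℂ _).2.1 _ (D.mem d) e he y hd hy c2, ?_, ?_,
        c4, ineq_tr (D.mem d) he hd hy s2 c2 fun v => (c5 v).trans_eq (congrArg _ (e2 v).symm)⟩
      · rw [lv_tr (u := fun y => nsq (Z y) + normSq (S.H y) + normSq (g y)⁻¹) (D.mem d) he hd hy s1]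
        refine (pd_of_lv s1 fun v hv => ?_).conjTranspose_mul_mul_same
          (Matrix.mulVec_injective_iff_isUnit.2 ((Matrix.isUnit_iff_isUnit_det _).2
            ((mTR n M).2.1 _ (D.mem d) e he y hd hy).2.1.isUnit))
        rw [lv_add s0 (cd_normSq (hol_cd g2)), lv_add (cd_nsq b1) (cd_normSq (hol_cd a1)),
          lv_nsq b1]
        exact add_pos_of_pos_of_nonneg (add_pos_of_pos_of_nonneg
          (nsq_pos fun h0 => hv (b2 v h0)) (lv_normSq a1 v)) (lv_normSq g2 v)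
      · rw [lv_tr (u := fun x => ph x - 1 / m * Real.log (normSq (S.H x))) (D.mem d) he hd hy s2]
        exact (psd_of_lv s2 fun v => (c3 v).trans_eq (e2 v).symm).conjTranspose_mul_mul_same _)
    (exh S hg (fun d z hz hw => (hZ d z hz hw).1) hc) (hm.mono_ac ac) fin
  refine ⟨F, fun d z hz hw => f1 _ (D.mem d) z (tg hz) hw, ?_⟩
  rw [cv, cv]
  exact f2

omit [DecidableEq ι] [M.Cpt] in
/-- A function with a finite weighted distance to a continuous one is square integrable. -/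
theorem loc_sq {δ : E n → ℝ} {G F : E n → ℂ} {U : Set (E n)} {y : E n} (hU : U ∈ 𝓝 y)
    (c1 : ContinuousAt δ y) (p1 : 0 < δ y) (h2 : ContinuousAt G y)
    (fi : ∫⁻ u in U, ENNReal.ofReal (normSq (G u - F u) * δ u) ≠ ⊤) :
    ∃ V ∈ 𝓝 y, ∫⁻ u in V, ENNReal.ofReal (‖F u‖ ^ 2) ≠ ⊤ := by
  obtain ⟨ε, ε0, hε⟩ := Metric.eventually_nhds_iff_ball.1
    ((c1.eventually (lt_mem_nhds (half_lt_self p1))).and
      ((h2.norm.eventually (gt_mem_nhds (lt_add_one _))).and hU))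
  have c0 := half_pos p1
  generalize δ y / 2 = c at hε c0
  generalize ‖G y‖ + 1 = B at hε
  refine ⟨_, ball_mem_nhds y ε0, ne_top_of_le_ne_top ?_ (setLIntegral_mono_ae'
    (g := fun u => ENNReal.ofReal (2 / c) * ENNReal.ofReal (normSq (G u - F u) * δ u) +
      ENNReal.ofReal (2 * B ^ 2)) measurableSet_ball (ae_of_all _ fun u hu => ?_))⟩
  · rw [lintegral_add_right _ measurable_const, lintegral_const_mul' _ _ ENNReal.ofReal_ne_top,
      setLIntegral_const]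
    exact ENNReal.add_ne_top.2 ⟨ENNReal.mul_ne_top ENNReal.ofReal_ne_top
      (ne_top_of_le_ne_top fi (lintegral_mono_set fun u hu => (hε u hu).2.2)),
      ENNReal.mul_ne_top ENNReal.ofReal_ne_top measure_ball_lt_top.ne⟩
  · obtain ⟨u1, u2, -⟩ := hε u hu
    rw [← ENNReal.ofReal_mul (by positivity)]
    refine le_trans (ENNReal.ofReal_le_ofReal ?_) ENNReal.ofReal_add_le
    have h7 : ‖F u‖ ≤ ‖G u‖ + ‖G u - F u‖ := norm_le_norm_add_norm_sub (G u) (F u)
    rw [normSq_eq_norm_sq (_ - _)]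
    generalize ‖G u - F u‖ = t at h7 ⊢
    have h8 : 2 * t ^ 2 ≤ 2 / c * (t ^ 2 * δ u) := by
      rw [div_mul_eq_mul_div, le_div_iff₀ c0, mul_assoc]
      exact mul_le_mul_of_nonneg_left (mul_le_mul_of_nonneg_left u1.le (sq_nonneg _)) two_pos.le
    have h9 := pow_le_pow_left₀ (norm_nonneg _) h7 2
    have h10 := pow_le_pow_left₀ (norm_nonneg _) u2.le 2
    nlinarith [sq_nonneg (‖G u‖ - t)]

theorem ext (hO : IsOpen O) (hs : O ⊆ off D) {ph : M.X → ℝ} {Γ F : M.X → ℂ} {μ : Measure M.X}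
    (hμ : IsEta D k m w μ)
    (h : D.On O fun d z => ContinuousAt (D.rd ph d) z ∧ ContinuousAt (D.rd Γ d) z)
    (hF : D.On (S.O ∩ O) fun d z => DifferentiableAt ℂ (D.rd F d) z)
    (fin : ∫⁻ x, ENNReal.ofReal (normSq (Γ x - F x) * Real.exp (-ph x)) ∂μ ≠ ⊤) :
    D.On O fun d z => HolN (D.rd (fun x => limUnder (𝓝[S.O ∩ O] x) F) d) z := by
  intro d z hz hw
  have ho : IsOpen {z | z ∈ B2 n ∧ (D.e d).symm z ∈ O} :=
    isOpen_iff_mem_nhds.2 fun y hy => on_ev hO hy.1 hy.2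
  have mO : ∀ y ∈ {z | z ∈ B2 n ∧ (D.e d).symm z ∈ O}, D.rd S.j d y ≠ 0 →
      (D.e d).symm y ∈ S.O ∩ O := fun y hy h0 => ⟨⟨hs hy.2, h0⟩, hy.2⟩
  have fi := ne_top_of_le_ne_top fin (setLIntegral_le_lintegral (D.e d).source _)
  rw [hμ d] at fi
  obtain ⟨g, g1, g2⟩ := SV.H85.ext_sq volume (f := D.rd F d) (j := D.rd S.j d) ho
    (fun y hy => (S.j_hol hy.1 (hs hy.2)).self_of_nhds.differentiableWithinAt)
    (fun y hy => S.j_nz hy.1 (hs hy.2))
    (fun y hy => (hF d y hy.1.1 (mO y hy.1 hy.2)).differentiableWithinAt) fun y hy => by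
      obtain ⟨h1, h2⟩ := h d y hy.1 hy.2
      have o := (off_symm D hy.1).1 (hs hy.2)
      obtain ⟨V, hV, hi⟩ := loc_sq (F := D.rd F d) (δ := fun u => normSq (w d u) ^ (1 / m : ℝ) *
          xr (D.c d) (fun i => k i / m) u * Real.exp (-D.rd ph d u)) (ho.mem_nhds hy)
        ((((continuous_normSq.continuousAt.comp (S.whol d y hy.1).continuousAt).rpow_const
          (Or.inr (by positivity))).mul (MON.cd_xr _ o).continuousAt).mul h1.neg.rexp)
        (mul_pos (mul_pos (Real.rpow_pos_of_pos (normSq_pos.2 (S.wne d y hy.1)) _)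
          (MON.xr_pos _ o)) (Real.exp_pos _)) h2
        (ne_top_of_le_ne_top fi ((setLIntegral_mono_ae' ho.measurableSet
          (ae_of_all _ fun u hu => le_of_eq (by
            rw [← ENNReal.ofReal_mul (mul_nonneg (Real.rpow_nonneg (normSq_nonneg _) _)
              (MON.xr_pos _ ((off_symm D hu.1).1 (hs hu.2))).le), mul_left_comm]
            rfl))).trans (lintegral_mono_set fun u hu => hu.1)))
      exact ⟨V, hV, ne_top_of_le_ne_top hi (lintegral_mono_set fun u hu => hu.1)⟩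
  have hz' : z ∈ {z | z ∈ B2 n ∧ (D.e d).symm z ∈ O} := ⟨hz, hw⟩
  refine hol_congr (f := g) ((ho.eventually_mem hz').mono fun y hy =>
    g1.differentiableAt (ho.mem_nhds hy)) ((ho.eventually_mem hz').mono fun y hy => ?_)
  exact lim_eq (tg hy.1) (((not_eventually.1 (S.j_nz hy.1 (hs hy.2))).and_eventually
    (ho.eventually_mem hy)).mono fun u hu => mO u hu.2 hu.1)
    (g1.differentiableAt (ho.mem_nhds hy)).continuousAt
    ((ho.eventually_mem hy).mono fun u hu h0 => (g2 u hu h0.1.2).symm)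

end HO

variable [M.Cpt]

open HO in
/-- The theorem of Hörmander off the zeros of `g`. -/
theorem hqO {C : ℝ≥0∞} (hC : Hor C) (C0 : C ≠ 0) (C1 : C ≠ ⊤) {r : ℕ} {Z : M.X → E r}
    (m0 : 0 < m) (whol : D.All fun b z => DifferentiableAt ℂ (w b) z)
    (wne : D.All fun b z => w b z ≠ 0)
    (wcmp : D.Ov fun b d x => w d (D.e d x) = w b (D.e b x) * D.um k b d x * (D.J b d x).det ^ m)
    (hZ : D.On (off D) fun d z => HolN (D.rd Z d) z ∧ ∀ v, fderiv ℂ (D.rd Z d) z v = 0 → v = 0)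
    (hc : ∀ a : ℝ, IsCompact {x | x ∈ off D ∧ ‖Z x‖ ≤ a}) {μ : Measure M.X}
    (hμ : IsEta D k m w μ) {g : M.X → ℂ} (hg : D.On (off D) fun d z => HolN (D.rd g d) z)
    (g0 : ∃ x ∈ off D, g x ≠ 0) :
    IsOpen (offz D g) ∧ (∀ᵐ x ∂μ, x ∈ offz D g) ∧ HqO C D μ (offz D g) := by
  obtain ⟨q, d, z, h1, h2, h3, h4⟩ := HQ.ex_q hZ
  obtain ⟨H, hH⟩ := ex_H (W := off D)
    ⟨fun _ => 1, k, m, w, ∅, m0, whol, wne, wcmp, fun _ h => absurd h one_ne_zero⟩ h1
  have h5 := (off_symm D h2).2 h3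
  let S : Su D k m w := ⟨q, H, m0, whol, wne, h1, hH, _, h5, (hH d z h2 h5).trans_ne
    (div_ne_zero (mul_ne_zero (wne d z h2) (MON.xm_ne k h3)) (pow_ne_zero _ h4))⟩
  have hO := offz_open hg
  have e := isEta_unique hμ (isEta S hO (ae_offz hg g0))
  have ae : ∀ᵐ x ∂μ, x ∈ S.O ∩ offz D g := by
    rw [e]
    exact (withDensity_absolutelyContinuous _ _).ae_le (ae_O S hO)
  refine ⟨hO, ae.mono fun x hx => hx.2, fun ph β Γ hm h => ?_⟩
  by_cases fin : ∫⁻ x, ENNReal.ofReal (β x * Real.exp (-ph x)) ∂μ = ⊤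
  · exact ⟨0, fun d z _ _ => .of_forall fun y => differentiableAt_const (0 : ℂ), by
      rw [fin, ENNReal.mul_top C0]
      exact le_top⟩
  obtain ⟨F, f1, f2⟩ := solve S hC hg hZ hc e hm h fin
  refine ⟨_, HO.ext S hO (fun x hx => hx.1) hμ (fun d z hz hw => ⟨(h d z hz hw).1.continuousAt,
    (h d z hz hw).2.1.continuousAt⟩) f1 (ne_top_of_le_ne_top
      (ENNReal.mul_ne_top C1 fin) f2), le_trans (le_of_eq ?_) f2⟩
  refine lintegral_congr_ae (ae.mono fun x hx => ?_)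
  obtain ⟨b, hb⟩ := ex_ch D x
  have : (𝓝[S.O ∩ offz D g] x).NeBot := mem_closure_iff_nhdsWithin_neBot.1 (subset_closure hx)
  have e : limUnder (𝓝[S.O ∩ offz D g] x) F = F x :=
    ((cont_of hb (on_at f1 hb hx).continuousAt).tendsto.mono_left nhdsWithin_le_nhds).limUnder_eq
  beta_reduce
  rw [e]

end Pool.Agent.Lib.ZQ
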