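import Pool.Agent.Lib.EXS.B_HORM

/-! The theorem of Hörmander, with its constant, on an open set with étale coordinates. -/

open scoped Classical Topology ContDiff ComplexOrder Matrix
open Set MeasureTheory Complex Metric Filter

noncomputable section

namespace Pool.Agent.Lib.ZQ

open Pool.Agent.Lib.SV (E Cht RD Dom levE d2 d2_eq)
open Pool.Agent.Lib.HS32
open Pool.Agent.Lib.EXS.HORM

variable {n : ℕ} {M : Mf n} [M.Cpt] {O : Set M.X} {q : M.X → E n}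

/-- The integral for the pull-back of Lebesgue measure, in a chart. -/
theorem rm_chart (hO : IsOpen O)
    (h0 : M.All fun e z => e.symm z ∈ O → HolN (q ∘ e.symm) z ∧ (jm (q ∘ e.symm) z).det ≠ 0)
    {e : M.Ch} (he : e ∈ M.C) {U : Set M.X} (hU : IsOpen U) (hs : U ⊆ O ∩ e.source)
    (F : M.X → ENNReal) :
    ∫⁻ x in U, F x ∂SV.rm q O = ∫⁻ z in e.target ∩ e.symm ⁻¹' U,
      ENNReal.ofReal (normSq (jm (q ∘ e.symm) z).det) * F (e.symm z) := by
  have := (mCOV n M).1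
  let D : Dom n := { Y := M.X, p := q, W := O, rd := rd h0 hO }
  have R := SV.stRM n D
  change ∫⁻ x in U, F x ∂D.μ = _
  revert F
  refine glob e fun y hy => ?_
  obtain ⟨c, -, h1, h2, h3⟩ := cht h0 hO (hs hy).1 (hU.mem_nhds hy)
  refine ⟨c.source, c.open_source, h1, h2, fun F => ?_⟩
  have hl : ∀ z ∈ e.target ∩ e.symm ⁻¹' c.source, HolN (q ∘ e.symm) z := fun z hz =>
    (h0 e he z hz.1 (h3.sub hz.2)).1
  have im : c.target = (q ∘ e.symm) '' (e.target ∩ e.symm ⁻¹' c.source) := by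
    rw [image_comp, ← c.image_source_eq_target, ← h3.eq.image_eq]
    refine congrArg _ (Set.ext fun x => ⟨fun hx => ?_, ?_⟩)
    · have a := (hs (h2 hx)).2
      exact ⟨e x, ⟨e.map_source a, by rwa [mem_preimage, e.left_inv a]⟩, e.left_inv a⟩
    · rintro ⟨z, hz, rfl⟩
      exact hz.2
  rw [R.2.2.1 c h3 F, im, lintegral_image_eq_lintegral_abs_det_fderiv_mul volume
    (e.isOpen_inter_preimage_symm c.open_source).measurableSet
    (f' := fun z => fderiv ℝ (q ∘ e.symm) z)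
    (fun z hz => (cd_diff (mCHN n _ _ (hl z hz)).1).hasFDerivAt.hasFDerivWithinAt)
    fun z hz w hw hzw => e.symm.injOn hz.1 hw.1 (c.injOn hz.2 hw.2
      (by rw [← h3.eq hz.2, ← h3.eq hw.2]; exact hzw))]
  refine setLIntegral_congr_fun (e.isOpen_inter_preimage_symm c.open_source).measurableSet
    fun z hz => ?_
  rw [(mCHN n _ _ (hl z hz)).2.2.2.2.2.2.2.1, abs_of_nonneg (normSq_nonneg _),
    Function.comp_apply, h3.symm_p hz.2]

theorem rm_off (hO : IsOpen O)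
    (h0 : M.All fun e z => e.symm z ∈ O → HolN (q ∘ e.symm) z ∧ (jm (q ∘ e.symm) z).det ≠ 0) :
    SV.rm q O Oᶜ = 0 := by
  have := (mCOV n M).1
  let D : Dom n := { Y := M.X, p := q, W := O, rd := rd h0 hO }
  exact (SV.stRM n D).1.off

/-- The theorem of Hörmander with the constant ten. -/
theorem horq (hO : IsOpen O) {ex ph h : M.X → ℝ} {Γ : M.X → ℂ}
    (ha : M.All fun e z => e.symm z ∈ O → HolN (q ∘ e.symm) z ∧ (jm (q ∘ e.symm) z).det ≠ 0 ∧
      ContDiffAt ℝ ∞ (ex ∘ e.symm) z ∧ ContDiffAt ℝ ∞ (ph ∘ e.symm) z ∧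
      ContDiffAt ℝ ∞ (Γ ∘ e.symm) z ∧ (M.hs ex e z).PosDef ∧ (M.hs ph e z).PosSemidef ∧
      0 ≤ h (e.symm z) ∧ ∀ v : E n,
        normSq (∑ i, star (v i) * dzb i (Γ ∘ e.symm) z) ≤ h (e.symm z) * nq (M.hs ph e z) v)
    (hb : ∀ a : ℝ, IsCompact {y | y ∈ O ∧ ex y ≤ a}) (hm : AEMeasurable h (SV.rm q O))
    (fin : ∫⁻ x, ENNReal.ofReal (h x * Real.exp (-ph x)) ∂SV.rm q O ≠ ⊤) :
    ∃ F : M.X → ℂ, (M.All fun e z => e.symm z ∈ O → DifferentiableAt ℂ (F ∘ e.symm) z) ∧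
      ∫⁻ x, ENNReal.ofReal (normSq (Γ x - F x) * Real.exp (-ph x)) ∂SV.rm q O ≤
        10 * ∫⁻ x, ENNReal.ofReal (h x * Real.exp (-ph x)) ∂SV.rm q O := by
  have := (mCOV n M).1
  have h0 : M.All fun e z => e.symm z ∈ O →
      HolN (q ∘ e.symm) z ∧ (jm (q ∘ e.symm) z).det ≠ 0 :=
    fun e he z hz h => ⟨(ha e he z hz h).1, (ha e he z hz h).2.1⟩
  let D : Dom n := { Y := M.X, p := q, W := O, rd := rd h0 hO }
  have loc : ∀ y ∈ O, ∃ c ∈ M.C, y ∈ c.source ∧ Cht q O c ∧ q y = c y ∧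
      ContDiffAt ℝ ∞ (ex ∘ c.symm) (c y) ∧ ContDiffAt ℝ ∞ (ph ∘ c.symm) (c y) ∧
      ContDiffAt ℝ ∞ (Γ ∘ c.symm) (c y) ∧ (M.hs ex c (c y)).PosDef ∧
      (M.hs ph c (c y)).PosSemidef ∧ 0 ≤ h (c.symm (c y)) ∧ ∀ v : E n,
        normSq (∑ i, star (v i) * dzb i (Γ ∘ c.symm) (c y)) ≤
          h (c.symm (c y)) * nq (M.hs ph c (c y)) v := fun y hy => by
    obtain ⟨c, h1, h2, -, h3⟩ := cht h0 hO hy univ_mem
    exact ⟨c, h1, h2, h3, h3.eq h2, (ha.at h1 h2 (by rwa [c.left_inv h2])).2.2⟩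
  obtain ⟨F, f1, f2⟩ := hor0 n D ex Γ ph h
    ⟨fun y hy => by
      obtain ⟨c, -, h2, h3, h4, h5, -⟩ := loc y hy
      exact (h3.sm_iff h2).2 (h4 ▸ cd_le h5 2),
    fun y hy v hv => by
      obtain ⟨c, -, h2, h3, h4, h5, -, -, h6, -⟩ := loc y hy
      rw [h3.lev_eq h2, h4, lev_nq h5]
      exact mul_pos four_pos (Complex.lt_def.1 (h6.dotProduct_mulVec_pos hv)).1, hb⟩
    (fun x hx => by
      obtain ⟨c, h1, h2, h3, h4, -, h5, h6, -, h7, h8, h9⟩ := loc x hx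
      rw [c.left_inv h2] at h8 h9
      have l : ∀ v, SV.lev q ph x v = 4 * nq (M.hs ph c (c x)) v := fun v => by
        rw [h3.lev_eq h2, h4, lev_nq h5]
        rfl
      have p : ∀ v, 0 ≤ nq (M.hs ph c (c x)) v := fun v =>
        (Complex.le_def.1 (h7.dotProduct_mulVec_nonneg v)).1
      refine ⟨(h3.sm_iff h2).2 (h4 ▸ cd_le h6 2), ⟨(h3.sm_iff h2).2 (h4 ▸ cd_le h5 2),
        fun v => by rw [l]; linarith [p v]⟩, h8, fun v => ?_⟩
      have b2 := h9 v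
      rw [l, SV.dbar, h3.dd_eq h2, h4, dbar_eq, norm_mul, mul_pow, Complex.norm_ofNat,
        ← normSq_eq_norm_sq]
      nlinarith)
    hm fin
  refine ⟨F, fun c hc z hz hx => ?_, ?_⟩
  · obtain ⟨c', h1, h2, h3, h4, -⟩ := loc _ hx
    have a := (h3.hol_iff h2).1 (f1 _ hx)
    obtain ⟨t1, -, -, t3, -⟩ := (mTR n M).2.1 c' h1 c hc _ h2 (c.map_target hz)
    rw [c.right_inv hz] at t1 t3
    refine (DifferentiableAt.comp z (g := F ∘ c'.symm) (f := c' ∘ c.symm)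
      (by rwa [h4] at a) t1.self_of_nhds).congr_of_eventuallyEq (t3.mono fun w hw => ?_)
    simp only [Function.comp_apply, hw.2.2.2.2.1]
  · simp only [normSq_eq_norm_sq]
    exact f2

end Pool.Agent.Lib.ZQ
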