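import Pool.Agent.Lib.EXS.RV2
import Pool.Agent.Lib.EXS.B_GLU
import Pool.Agent.Lib.SV.B_ZER
import Pool.Agent.Lib.SV.B_SUB

/-! The complement of the divisor is open, dense and connected; zero sets are null. -/

open scoped Classical Topology ContDiff ComplexOrder Matrix
open Set MeasureTheory Complex Metric Filter

noncomputable section

namespace Pool.Agent.Lib.ZQ

open Pool.Agent.Lib.SV (E)
open Pool.Agent.Lib.HS32 Pool.Agent.Lib.EX Pool.Agent.Lib.EXS

variable {n : ℕ} {ι : Type} [Fintype ι] [DecidableEq ι]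

theorem punct_conn : IsPreconnected {z : ℂ | z ∈ ball (0 : ℂ) 2 ∧ z ≠ 0} := by
  have e : {z : ℂ | z ∈ ball (0 : ℂ) 2 ∧ z ≠ 0} =
      (fun p : ℝ × ℝ => (p.1 : ℂ) * Complex.exp (p.2 * I)) '' (Ioo 0 2 ×ˢ univ) := by
    ext z
    constructor
    · rintro ⟨h1, h2⟩
      exact ⟨(‖z‖, arg z), ⟨⟨norm_pos_iff.2 h2, mem_ball_zero_iff.1 h1⟩, mem_univ _⟩,
        norm_mul_exp_arg_mul_I z⟩
    · rintro ⟨p, ⟨⟨h1, h2⟩, -⟩, rfl⟩
      refine ⟨mem_ball_zero_iff.2 ?_, mul_ne_zero (ofReal_ne_zero.2 h1.ne') (Complex.exp_ne_zero _)⟩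
      rw [norm_mul, norm_exp_ofReal_mul_I, mul_one, norm_real, Real.norm_of_nonneg h1.le]
      exact h2
  rw [e]
  exact (isPreconnected_Ioo.prod isPreconnected_univ).image _ (by fun_prop)

omit [Fintype ι] [DecidableEq ι] in
theorem offB_conn (c : ι → Option (Fin n)) : IsPreconnected {z | z ∈ B2 n ∧ Off c z} := by
  have e : {z | z ∈ B2 n ∧ Off c z} = pi univ fun j : Fin n =>
      if ∃ i, c i = some j then {z : ℂ | z ∈ ball (0 : ℂ) 2 ∧ z ≠ 0} else ball (0 : ℂ) 2 := by
    ext z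
    rw [mem_univ_pi]
    constructor
    · rintro ⟨h1, h2⟩ j
      have h3 : z j ∈ ball (0 : ℂ) 2 :=
        mem_ball_zero_iff.2 ((norm_le_pi_norm z j).trans_lt (mem_ball_zero_iff.1 h1))
      by_cases h : ∃ i, c i = some j
      · rw [if_pos h]
        obtain ⟨i, hi⟩ := h
        have := h2 i
        rw [xi, hi] at this
        exact ⟨h3, this⟩
      · rwa [if_neg h]
    · intro h
      refine ⟨mem_ball_zero_iff.2 ((pi_norm_lt_iff two_pos).2 fun j => ?_), fun i => ?_⟩
      · have := h j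
        by_cases h' : ∃ i, c i = some j
        · rw [if_pos h'] at this
          exact mem_ball_zero_iff.1 this.1
        · rw [if_neg h'] at this
          exact mem_ball_zero_iff.1 this
      · cases hc : c i with
        | none => rw [xi, hc]; exact one_ne_zero
        | some j =>
          have := h j
          rw [if_pos ⟨i, hc⟩] at this
          rw [xi, hc]
          exact this.2
  rw [e]
  refine isPreconnected_univ_pi fun j => ?_
  by_cases h : ∃ i, c i = some j
  · rw [if_pos h]; exact punct_conn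
  · rw [if_neg h]; exact (convex_ball _ _).isPreconnected

theorem offB_open (c : ι → Option (Fin n)) : IsOpen {z | z ∈ B2 n ∧ Off c z} :=
  isOpen_iff_mem_nhds.2 fun _ hz => (isOpen_ball.eventually_mem hz.1).and (MON.off_ev hz.2)

variable {M : Mf n} (D : Ad M ι) {d : D.A} {z : E n}

theorem off_symm (hz : z ∈ B2 n) : (D.e d).symm z ∈ off D ↔ Off (D.c d) z := by
  rw [GLU.mem_off (TRF.mem_src D hz), TRF.rinv D hz]

theorem off_open : IsOpen (off D) := isOpen_iff_mem_nhds.2 fun x hx => by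
  obtain ⟨d, hd⟩ := K32.ex_ch D x
  filter_upwards [((D.e d).continuousAt hd).eventually (MON.off_ev (hx d hd)),
    (D.e d).open_source.mem_nhds hd] with y h1 h2 using (GLU.mem_off h2).2 h1

theorem off_inter (d : D.A) :
    (D.e d).source ∩ off D = (D.e d).symm '' {z | z ∈ B2 n ∧ Off (D.c d) z} := by
  ext x
  constructor
  · rintro ⟨h1, h2⟩
    exact ⟨D.e d x, ⟨TRF.mem_B D h1, h2 d h1⟩, (D.e d).left_inv h1⟩
  · rintro ⟨z, ⟨h1, h2⟩, rfl⟩
    exact ⟨TRF.mem_src D h1, (off_symm D h1).2 h2⟩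

theorem off_dense : Dense (off D) := fun x =>
  mem_closure_iff_nhdsWithin_neBot.2 (GLU.neBot D x)

/-- The complement of the divisor is connected. -/
theorem off_conn [M.Cpt] : IsPreconnected (off D) := by
  have c1 : ∀ d, IsPreconnected ((D.e d).source ∩ off D) := fun d => by
    rw [off_inter]
    exact (offB_conn _).image _ ((D.e d).continuousOn_symm.mono fun z hz => K32.tg hz.1)
  rw [isPreconnected_iff_subset_of_disjoint]
  intro u v hu hv hs hd
  have o : ∀ u : Set M.X, IsOpen {x | ∃ d, x ∈ (D.e d).source ∧ (D.e d).source ∩ off D ⊆ u} :=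
    fun u => isOpen_iff_mem_nhds.2 fun x ⟨d, h1, h2⟩ =>
      mem_of_superset ((D.e d).open_source.mem_nhds h1) fun y hy => ⟨d, hy, h2⟩
  have key := isPreconnected_iff_subset_of_disjoint.1 (isPreconnected_univ (α := M.X)) _ _ (o u)
    (o v) (fun x _ => by
      obtain ⟨d, hx⟩ := K32.ex_ch D x
      exact (isPreconnected_iff_subset_of_disjoint.1 (c1 d) u v hu hv
        (inter_subset_right.trans hs) (subset_eq_empty
          (inter_subset_inter_left _ inter_subset_right) hd)).imp (fun h => ⟨d, hx, h⟩)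
        fun h => ⟨d, hx, h⟩) (eq_empty_of_forall_notMem fun x hx => by
      obtain ⟨-, ⟨d, h1, h2⟩, d', h3, h4⟩ := hx
      obtain ⟨y, y1, y2⟩ := (off_dense D).inter_open_nonempty _
        ((D.e d).open_source.inter (D.e d').open_source) ⟨x, h1, h3⟩
      exact (eq_empty_iff_forall_notMem.1 hd y) ⟨y2, h2 ⟨y1.1, y2⟩, h4 ⟨y1.2, y2⟩⟩)
  exact key.imp (fun h x hx => let ⟨_, h1, h2⟩ := h (mem_univ x); h2 ⟨h1, hx⟩)
    fun h x hx => let ⟨_, h1, h2⟩ := h (mem_univ x); h2 ⟨h1, hx⟩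

/-- The zero set of a holomorphic function is null. -/
theorem zero_null {U : Set (E n)} {f : E n → ℂ} (hU : IsOpen U) (hf : DifferentiableOn ℂ f U)
    (h0 : ∀ z ∈ U, ¬f =ᶠ[𝓝 z] 0) : volume {z | z ∈ U ∧ f z = 0} = 0 := by
  refine measure_null_of_locally_null _ fun z hz => ?_
  obtain ⟨r, r0, hr⟩ := Metric.isOpen_iff.1 hU z hz.1
  obtain ⟨w, h1, h2⟩ := ((not_eventually.1 (h0 z hz.1)).and_eventually (ball_mem_nhds z r0)).exists
  refine ⟨{w | w ∈ ball z r ∧ f w = 0}, ?_, SV.stZER SV.stSUB n f z r (hf.mono hr) ⟨w, h2, h1⟩⟩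
  filter_upwards [mem_nhdsWithin_of_mem_nhds (ball_mem_nhds z r0), self_mem_nhdsWithin] with y a b
  exact ⟨a, b.2⟩

end Pool.Agent.Lib.ZQ
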