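import Pool.Agent.Lib.ZL.B_HQ

/-! The theorem of Hörmander off the divisor, with an arbitrary constant. -/

open scoped Classical Topology ContDiff ComplexOrder Matrix ENNReal
open Set MeasureTheory Complex Metric Filter

noncomputable section

namespace Pool.Agent.Lib.ZQ

open Pool.Agent.Lib.SV (E Cht RD Dom Exh Sm Psh dbar lev Hol nsq nsq_nonneg)
open Pool.Agent.Lib.HS32 Pool.Agent.Lib.EX Pool.Agent.Lib.ZL Pool.Agent.Lib.ZL.HQ
open Pool.Agent.Lib.EXS (off)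
open Pool.Agent.Lib.EXS.K32 Pool.Agent.Lib.EXS.HORM

/-- The theorem of Hörmander on Riemann domains holds with the constant `C`. -/
def Hor (C : ℝ≥0∞) : Prop := ∀ (n : ℕ) (D : Dom n) (s : D.Y → ℝ) (G : D.Y → ℂ) (φ h : D.Y → ℝ),
  Exh D.p D.W s → (∀ y ∈ D.W, Sm D.p 2 G y ∧ Psh D.p φ y ∧ 0 ≤ h y ∧
    ∀ v, ‖dbar D.p G y v‖ ^ 2 ≤ h y * lev D.p φ y v) → AEMeasurable h D.μ →
  ∫⁻ y, ENNReal.ofReal (h y * Real.exp (-φ y)) ∂D.μ ≠ ⊤ →
  ∃ F : D.Y → ℂ, (∀ y ∈ D.W, Hol D.p F y) ∧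
    ∫⁻ y, ENNReal.ofReal (‖G y - F y‖ ^ 2 * Real.exp (-φ y)) ∂D.μ ≤
      C * ∫⁻ y, ENNReal.ofReal (h y * Real.exp (-φ y)) ∂D.μ

theorem hor_ten : Hor 10 := hor0

section

variable {n : ℕ} {M : Mf n} [M.Cpt] {O : Set M.X} {q : M.X → E n}

/-- The theorem of Hörmander with the constant `C`. -/
theorem horqC {C : ℝ≥0∞} (hC : Hor C) (hO : IsOpen O) {ex ph h : M.X → ℝ} {Γ : M.X → ℂ}
    (ha : M.All fun e z => e.symm z ∈ O → HolN (q ∘ e.symm) z ∧ (jm (q ∘ e.symm) z).det ≠ 0 ∧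
      ContDiffAt ℝ ∞ (ex ∘ e.symm) z ∧ ContDiffAt ℝ ∞ (ph ∘ e.symm) z ∧
      ContDiffAt ℝ ∞ (Γ ∘ e.symm) z ∧ (M.hs ex e z).PosDef ∧ (M.hs ph e z).PosSemidef ∧
      0 ≤ h (e.symm z) ∧ ∀ v : E n,
        normSq (∑ i, star (v i) * dzb i (Γ ∘ e.symm) z) ≤ h (e.symm z) * nq (M.hs ph e z) v)
    (hb : ∀ a : ℝ, IsCompact {y | y ∈ O ∧ ex y ≤ a}) (hm : AEMeasurable h (SV.rm q O))
    (fin : ∫⁻ x, ENNReal.ofReal (h x * Real.exp (-ph x)) ∂SV.rm q O ≠ ⊤) :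
    ∃ F : M.X → ℂ, (M.All fun e z => e.symm z ∈ O → DifferentiableAt ℂ (F ∘ e.symm) z) ∧
      ∫⁻ x, ENNReal.ofReal (normSq (Γ x - F x) * Real.exp (-ph x)) ∂SV.rm q O ≤
        C * ∫⁻ x, ENNReal.ofReal (h x * Real.exp (-ph x)) ∂SV.rm q O := by
  have := (mCOV n M).1
  have h0 : M.All fun e z => e.symm z ∈ O →
      HolN (q ∘ e.symm) z ∧ (jm (q ∘ e.symm) z).det ≠ 0 :=
    fun e he z hz h => ⟨(ha e he z hz h).1, (ha e he z hz h).2.1⟩
  let D : Dom n := { Y := M.X, p := q, W := O, rd := rd h0 hO }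
  have loc : ∀ y ∈ O, ∃ c ∈ M.C, y ∈ c.source ∧ Cht q O c ∧ q y = c y ∧
      ContDiffAt ℝ ∞ (ex ∘ c.symm) (c y) ∧ ContDiffAt ℝ ∞ (ph ∘ c.symm) (c y) ∧
      ContDiffAt ℝ ∞ (Γ ∘ c.symm) (c y) ∧ (M.hs ex c (c y)).PosDef ∧
      (M.hs ph c (c y)).PosSemidef ∧ 0 ≤ h (c.symm (c y)) ∧ ∀ v : E n,
        normSq (∑ i, star (v i) * dzb i (Γ ∘ c.symm) (c y)) ≤
          h (c.symm (c y)) * nq (M.hs ph c (c y)) v := fun y hy => by
    obtain ⟨c, h1, h2, -, h3⟩ := cht h0 hO hy univ_mem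
    exact ⟨c, h1, h2, h3, h3.eq h2, (ha.at h1 h2 (by rwa [c.left_inv h2])).2.2⟩
  obtain ⟨F, f1, f2⟩ := hC n D ex Γ ph h
    ⟨fun y hy => by
      obtain ⟨c, -, h2, h3, h4, h5, -⟩ := loc y hy
      exact (h3.sm_iff h2).2 (h4 ▸ cd_le h5 2),
    fun y hy v hv => by
      obtain ⟨c, -, h2, h3, h4, h5, -, -, h6, -⟩ := loc y hy
      rw [h3.lev_eq h2, h4, lev_nq h5]
      exact mul_pos four_pos (Complex.lt_def.1 (h6.dotProduct_mulVec_pos hv)).1, hb⟩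
    (fun x hx => by
      obtain ⟨c, h1, h2, h3, h4, -, h5, h6, -, h7, h8, h9⟩ := loc x hx
      rw [c.left_inv h2] at h8 h9
      have l : ∀ v, SV.lev q ph x v = 4 * nq (M.hs ph c (c x)) v := fun v => by
        rw [h3.lev_eq h2, h4, lev_nq h5]
        rfl
      have p : ∀ v, 0 ≤ nq (M.hs ph c (c x)) v := fun v =>
        (Complex.le_def.1 (h7.dotProduct_mulVec_nonneg v)).1
      refine ⟨(h3.sm_iff h2).2 (h4 ▸ cd_le h6 2), ⟨(h3.sm_iff h2).2 (h4 ▸ cd_le h5 2),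
        fun v => by rw [l]; linarith [p v]⟩, h8, fun v => ?_⟩
      have b2 := h9 v
      rw [l, SV.dbar, h3.dd_eq h2, h4, dbar_eq, norm_mul, mul_pow, Complex.norm_ofNat,
        ← normSq_eq_norm_sq]
      nlinarith)
    hm fin
  refine ⟨F, fun c hc z hz hx => ?_, ?_⟩
  · obtain ⟨c', h1, h2, h3, h4, -⟩ := loc _ hx
    have a := (h3.hol_iff h2).1 (f1 _ hx)
    obtain ⟨t1, -, -, t3, -⟩ := (mTR n M).2.1 c' h1 c hc _ h2 (c.map_target hz)
    rw [c.right_inv hz] at t1 t3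
    refine (DifferentiableAt.comp z (g := F ∘ c'.symm) (f := c' ∘ c.symm)
      (by rwa [h4] at a) t1.self_of_nhds).congr_of_eventuallyEq (t3.mono fun w hw => ?_)
    simp only [Function.comp_apply, hw.2.2.2.2.1]
  · simp only [normSq_eq_norm_sq]
    exact f2

end

variable {n : ℕ} {M : Mf n} {ι : Type} [Fintype ι] [DecidableEq ι] {D : Ad M ι} {k : ι → ℤ}
  {m : ℕ} {w : D.A → E n → ℂ}

/-- The theorem of Hörmander holds off the divisor for the measure `μ`, with the constant `C`. -/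
def HqC (C : ℝ≥0∞) (D : Ad M ι) (μ : Measure M.X) : Prop :=
  ∀ (ph β : M.X → ℝ) (Γ : M.X → ℂ), AEMeasurable β μ →
    (D.On (off D) fun d z => ContDiffAt ℝ ∞ (D.rd ph d) z ∧ ContDiffAt ℝ ∞ (D.rd Γ d) z ∧
      (∀ v, 0 ≤ lv (D.rd ph d) z v) ∧ 0 ≤ D.rd β d z ∧ ∀ v : E n,
        normSq (∑ i, star (v i) * dzb i (D.rd Γ d) z) ≤ D.rd β d z * lv (D.rd ph d) z v) →
    ∃ F : M.X → ℂ, (D.On (off D) fun d z => HolN (D.rd F d) z) ∧
      ∫⁻ x, ENNReal.ofReal (normSq (Γ x - F x) * Real.exp (-ph x)) ∂μ ≤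
        C * ∫⁻ x, ENNReal.ofReal (β x * Real.exp (-ph x)) ∂μ

omit [DecidableEq ι] in
/-- The measure of a form is unique. -/
theorem isEta_unique {μ ν : Measure M.X} (hμ : IsEta D k m w μ) (hν : IsEta D k m w ν) :
    μ = ν := by
  refine (Measure.ext_iff_of_iUnion_eq_univ (s := fun d => (D.e d).source)
    (eq_univ_of_forall fun x => mem_iUnion.2 (ex_ch D x))).2 fun d => ?_
  ext s hs
  rw [← lintegral_indicator_one hs, ← lintegral_indicator_one hs, hμ, hν]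

variable [M.Cpt]

theorem solveC {C : ℝ≥0∞} (hC : Hor C) (S : Su D k m w) {r : ℕ} {Z : M.X → E r}
    (hZ : D.On (off D) fun d z => HolN (D.rd Z d) z ∧ ∀ v, fderiv ℂ (D.rd Z d) z v = 0 → v = 0)
    (hc : ∀ a : ℝ, IsCompact {x | x ∈ off D ∧ ‖Z x‖ ≤ a}) {ph β : M.X → ℝ} {Γ : M.X → ℂ}
    (hm : AEMeasurable β S.μ)
    (h : D.On (off D) fun d z => ContDiffAt ℝ ∞ (D.rd ph d) z ∧ ContDiffAt ℝ ∞ (D.rd Γ d) z ∧
      (∀ v, 0 ≤ lv (D.rd ph d) z v) ∧ 0 ≤ D.rd β d z ∧ ∀ v : E n,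
        normSq (∑ i, star (v i) * dzb i (D.rd Γ d) z) ≤ D.rd β d z * lv (D.rd ph d) z v)
    (fin : ∫⁻ x, ENNReal.ofReal (β x * Real.exp (-ph x)) ∂S.μ ≠ ⊤) :
    ∃ F : M.X → ℂ, (D.On S.O fun d z => DifferentiableAt ℂ (D.rd F d) z) ∧
      ∫⁻ x, ENNReal.ofReal (normSq (Γ x - F x) * Real.exp (-ph x)) ∂S.μ ≤
        C * ∫⁻ x, ENNReal.ofReal (β x * Real.exp (-ph x)) ∂S.μ := by
  have cv : ∀ t : M.X → ℝ, ∫⁻ x, ENNReal.ofReal (t x * Real.exp (-ph x)) ∂S.μ =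
      ∫⁻ x, ENNReal.ofReal (t x * Real.exp (-(ph x - 1 / m * Real.log (normSq (S.H x)))))
        ∂SV.rm S.q S.O := fun t => by
    rw [S.lint]
    exact lintegral_congr_ae (S.ae_O.mono fun x hx => (S.wt hx _ _).symm)
  have ac : SV.rm S.q S.O ≪ S.μ := withDensity_absolutelyContinuous' S.ρ_meas
    (S.ae_O.mono fun x hx => (ENNReal.ofReal_pos.2 (Real.rpow_pos_of_pos
      (normSq_pos.2 fun h => hx.2 (inv_eq_zero.2 h)) _)).ne')
  rw [cv] at fin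
  obtain ⟨F, f1, f2⟩ := horqC hC (q := S.q) (ex := fun y => nsq (Z y) + normSq (S.H y))
    (ph := fun x => ph x - 1 / m * Real.log (normSq (S.H x))) (h := β) (Γ := Γ) S.O_open
    (Mf.allOn_of_source fun e he y hy ho => by
      have et := S.et.at he hy ho
      rw [e.left_inv hy] at ho ⊢
      obtain ⟨d, hd⟩ := ex_ch D y
      have hz := TRF.mem_B D hd
      obtain ⟨a1, a2, -⟩ := S.H_hol hz (by rwa [(D.e d).left_inv hd])
      obtain ⟨b1, b2⟩ := on_at hZ hd ho.1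
      obtain ⟨c1, c2, c3, c4, c5⟩ := on_at h hd ho.1
      rw [EXS.GLU.rd_e β hd] at c4 c5
      obtain ⟨l1, l2⟩ := lv_log a1 a2
      have tr := (mTR n M).2.2.2.1
      have s1 := (cd_nsq b1).add (cd_normSq (hol_cd a1))
      have s2 := c1.sub (contDiffAt_const (c := (1 / m : ℝ)).mul l1)
      have e2 : ∀ v, lv (fun z => D.rd ph d z - 1 / m * Real.log (normSq (D.rd S.H d z)))
          (D.e d y) v = lv (D.rd ph d) (D.e d y) v := fun v => by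
        rw [lv_sub c1 (contDiffAt_const.mul l1), lv_mul l1, l2, mul_zero, sub_zero]
      refine ⟨et.1, et.2, (tr ℝ _).2.1 _ (D.mem d) e he y hd hy s1,
        (tr ℝ _).2.1 _ (D.mem d) e he y hd hy s2, (tr ℂ _).2.1 _ (D.mem d) e he y hd hy c2, ?_, ?_,
        c4, ineq_tr (D.mem d) he hd hy s2 c2 fun v => (c5 v).trans_eq (congrArg _ (e2 v).symm)⟩
      · rw [lv_tr (u := fun y => nsq (Z y) + normSq (S.H y)) (D.mem d) he hd hy s1]
        refine (pd_of_lv s1 fun v hv => ?_).conjTranspose_mul_mul_same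
          (Matrix.mulVec_injective_iff_isUnit.2 ((Matrix.isUnit_iff_isUnit_det _).2
            ((mTR n M).2.1 _ (D.mem d) e he y hd hy).2.1.isUnit))
        rw [lv_add (cd_nsq b1) (cd_normSq (hol_cd a1)), lv_nsq b1]
        exact add_pos_of_pos_of_nonneg (nsq_pos fun h0 => hv (b2 v h0)) (lv_normSq a1 v)
      · rw [lv_tr (u := fun x => ph x - 1 / m * Real.log (normSq (S.H x))) (D.mem d) he hd hy s2]
        exact (psd_of_lv s2 fun v => (c3 v).trans_eq (e2 v).symm).conjTranspose_mul_mul_same _)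
    (S.exh (fun d z hz hw => (hZ d z hz hw).1) hc) (hm.mono_ac ac) fin
  refine ⟨F, fun d z hz hw => f1 _ (D.mem d) z (tg hz) hw, ?_⟩
  rw [cv, cv]
  exact f2

/-- The theorem of Hörmander with the constant `C` for the measure of a form. -/
theorem hqC {C : ℝ≥0∞} (hC : Hor C) (C0 : C ≠ 0) (C1 : C ≠ ⊤) {r : ℕ} {Z : M.X → E r}
    (m0 : 0 < m) (whol : D.All fun b z => DifferentiableAt ℂ (w b) z)
    (wne : D.All fun b z => w b z ≠ 0)
    (wcmp : D.Ov fun b d x => w d (D.e d x) = w b (D.e b x) * D.um k b d x * (D.J b d x).det ^ m)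
    (hZ : D.On (off D) fun d z => HolN (D.rd Z d) z ∧ ∀ v, fderiv ℂ (D.rd Z d) z v = 0 → v = 0)
    (hc : ∀ a : ℝ, IsCompact {x | x ∈ off D ∧ ‖Z x‖ ≤ a}) {μ : Measure M.X}
    (hμ : IsEta D k m w μ) : HqC C D μ := by
  obtain ⟨q, d, z, h1, h2, h3, h4⟩ := HQ.ex_q hZ
  obtain ⟨H, hH⟩ := ex_H (W := off D)
    ⟨fun _ => 1, k, m, w, ∅, m0, whol, wne, wcmp, fun _ h => absurd h one_ne_zero⟩ h1
  have h5 := (off_symm D h2).2 h3
  let S : Su D k m w := ⟨q, H, m0, whol, wne, h1, hH, _, h5, (hH d z h2 h5).trans_ne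
    (div_ne_zero (mul_ne_zero (wne d z h2) (MON.xm_ne k h3)) (pow_ne_zero _ h4))⟩
  rw [isEta_unique hμ S.isEta]
  intro ph β Γ hm h
  by_cases fin : ∫⁻ x, ENNReal.ofReal (β x * Real.exp (-ph x)) ∂S.μ = ⊤
  · exact ⟨0, fun d z _ _ => .of_forall fun y => differentiableAt_const (0 : ℂ), by
      rw [fin, ENNReal.mul_top C0]
      exact le_top⟩
  obtain ⟨F, f1, f2⟩ := solveC hC S hZ hc hm h fin
  refine ⟨_, S.ext (fun d z hz hw => ⟨(h d z hz hw).1.continuousAt,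
    (h d z hz hw).2.1.continuousAt⟩) f1 (ne_top_of_le_ne_top
      (ENNReal.mul_ne_top C1 fin) f2), le_trans (le_of_eq ?_) f2⟩
  refine lintegral_congr_ae (S.μ_O.mono fun x hx => ?_)
  obtain ⟨b, hb⟩ := ex_ch D x
  have : (𝓝[S.O] x).NeBot := mem_closure_iff_nhdsWithin_neBot.1 (subset_closure hx)
  have e : limUnder (𝓝[S.O] x) F = F x :=
    ((cont_of hb (on_at f1 hb hx).continuousAt).tendsto.mono_left nhdsWithin_le_nhds).limUnder_eq
  beta_reduce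
  rw [e]

end Pool.Agent.Lib.ZQ
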