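import Pool.Agent.Lib.ZQ.HqO
import Pool.Agent.Lib.ZL.B_LEV
import Pool.Agent.Lib.SV.B_MON
import Pool.Agent.Lib.SV.B_SUB

/-! The theorem of Hörmander for an upper limit of singular weights. -/

open scoped Classical Topology ContDiff ENNReal
open Set MeasureTheory Complex Metric Filter

noncomputable section

namespace Pool.Agent.Lib.ZQ

open Pool.Agent.Lib.SV (E nsq nsq_nonneg)
open Pool.Agent.Lib.HS32 Pool.Agent.Lib.EX Pool.Agent.Lib.ZL Pool.Agent.Lib.ZL.HQ
open Pool.Agent.Lib.EXS (off)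
open Pool.Agent.Lib.EXS.K32 Pool.Agent.Lib.EXS.HORM

variable {n : ℕ} {M : Mf n} {ι : Type} [Fintype ι] [DecidableEq ι] {D : Ad M ι} {k : ι → ℤ}
  {m : ℕ} {w : D.A → E n → ℂ} {O : Set M.X} {μ : Measure M.X}

namespace Sg

omit [DecidableEq ι] in
theorem cont_on {F : Type} [TopologicalSpace F] {f : M.X → F}
    (h : D.On O fun d z => ContinuousAt (D.rd f d) z) : ContinuousOn f O := fun x hx => by
  obtain ⟨d, hd⟩ := ex_ch D x
  exact (cont_of hd (on_at h hd hx)).continuousWithinAt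

omit [DecidableEq ι] in
/-- The theorem of Montel. -/
theorem mon [M.Cpt] (hO : IsOpen O) {F : ℕ → M.X → ℂ}
    (hF : ∀ i, D.On O fun d z => HolN (D.rd (F i) d) z)
    (hb : D.On O fun d z => ∃ U ∈ 𝓝 z, ∃ B : ℝ≥0∞, B ≠ ⊤ ∧
      ∀ i, ∫⁻ u in U, ENNReal.ofReal (‖D.rd (F i) d u‖ ^ 2) ≤ B) :
    ∃ (G : M.X → ℂ) (s : ℕ → ℕ), StrictMono s ∧ (D.On O fun d z => HolN (D.rd G d) z) ∧
      ∀ x ∈ O, Tendsto (fun i => F (s i) x) atTop (𝓝 (G x)) := by
  have := (mCOV n M).1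
  have key : D.On O fun d z => ∃ r > 0, ∃ B : ℝ, (∀ u ∈ ball z r, (D.e d).symm u ∈ O) ∧
      ∀ i, DifferentiableOn ℂ (D.rd (F i) d) (ball z r) ∧
        ∀ u ∈ ball z r, ‖D.rd (F i) d u‖ ≤ B := fun d z hz hw => by
    obtain ⟨U, hU, B, hB, h⟩ := hb d z hz hw
    obtain ⟨R, hR, h1⟩ := Metric.eventually_nhds_iff_ball.1 ((on_ev hO hz hw).and hU)
    have h2 : 2 * (R / 2) = R := by ring
    obtain ⟨B', h3⟩ := SV.MON.bound SV.stSUB (n := n) (half_pos hR) hB
    have hs : ball z (R / 2) ⊆ ball z R := ball_subset_ball (by linarith)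
    have hd : ∀ i, DifferentiableOn ℂ (D.rd (F i) d) (ball z R) := fun i u hu =>
      (hF i d u (h1 u hu).1.1 (h1 u hu).1.2).self_of_nhds.differentiableWithinAt
    exact ⟨_, half_pos hR, B', fun u hu => (h1 u (hs hu)).1.2, fun i => ⟨(hd i).mono hs,
      h3 z _ (h2.symm ▸ hd i)
        (h2.symm ▸ (lintegral_mono_set fun u hu => (h1 u hu).2).trans (h i))⟩⟩
  obtain ⟨s, hs, G, hG⟩ := SV.MON.ascoli (f := F) (W := O) (fun x hx ε hε => by
    obtain ⟨d, hd⟩ := ex_ch D x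
    obtain ⟨r, hr, B, -, hk⟩ := on_at key hd hx
    have hc := (D.e d).continuousAt hd
    have h1 : Tendsto (fun y => 2 * B / r * ‖D.e d y - D.e d x‖) (𝓝 x)
        (𝓝 (2 * B / r * ‖D.e d x - D.e d x‖)) :=
      ((hc.tendsto.sub tendsto_const_nhds).norm).const_mul _
    refine ⟨_, ((D.e d).open_source.eventually_mem hd).and ((hc.eventually (ball_mem_nhds _ hr)).and
      (h1.eventually (gt_mem_nhds (show _ < ε by simpa using hε)))), .of_forall fun i y hy => ?_⟩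
    have h3 := SV.H85.norm_sub_le_of_bound (hk i).1 (hk i).2 hy.2.1
    rw [EXS.GLU.rd_e _ hy.1, EXS.GLU.rd_e _ hd] at h3
    rw [dist_comm, dist_eq_norm]
    exact h3.trans_lt hy.2.2) fun x hx => by
    obtain ⟨d, hd⟩ := ex_ch D x
    obtain ⟨r, hr, B, -, hk⟩ := on_at key hd hx
    exact ⟨B, .of_forall fun i => EXS.GLU.rd_e (F i) hd ▸ (hk i).2 _ (mem_ball_self hr)⟩
  refine ⟨G, s, hs, fun d z hz hw => ?_, hG⟩
  obtain ⟨r, hr, B, h1, hk⟩ := key d z hz hw
  have hd := (SV.H85.differentiableOn_of_tendsto (l := atTop) (f := fun i => D.rd (F (s i)) d)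
    (g := D.rd G d) (O := ball z r) isOpen_ball (.of_forall fun i => (hk _).1)
    (fun x hx => ⟨B, _, isOpen_ball.mem_nhds hx, .of_forall fun i => (hk _).2⟩)
    fun u hu => hG _ (h1 u hu)).1
  exact (isOpen_ball.eventually_mem (mem_ball_self hr)).mono fun u hu =>
    hd.differentiableAt (isOpen_ball.mem_nhds hu)

omit [Fintype ι] [DecidableEq ι] in
/-- A uniform bound in the square mean. -/
theorem loc {δ : E n → ℝ} {G : E n → ℂ} {y : E n} (c1 : ContinuousAt δ y) (p1 : 0 < δ y)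
    (h2 : ContinuousAt G y) {U : Set (E n)} (hU : U ∈ 𝓝 y) {A : ℝ≥0∞} (hA : A ≠ ⊤) :
    ∃ V ∈ 𝓝 y, ∃ B : ℝ≥0∞, B ≠ ⊤ ∧ ∀ F : E n → ℂ,
      ∫⁻ u in U, ENNReal.ofReal (normSq (G u - F u) * δ u) ≤ A →
      ∫⁻ u in V, ENNReal.ofReal (‖F u‖ ^ 2) ≤ B := by
  obtain ⟨ε, ε0, hε⟩ := Metric.eventually_nhds_iff_ball.1
    ((c1.eventually (lt_mem_nhds (half_lt_self p1))).and
      ((h2.norm.eventually (gt_mem_nhds (lt_add_one _))).and hU))
  have c0 := half_pos p1
  generalize δ y / 2 = c at hε c0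
  generalize ‖G y‖ + 1 = B at hε
  refine ⟨_, ball_mem_nhds y ε0, ENNReal.ofReal (2 / c) * A +
    ENNReal.ofReal (2 * B ^ 2) * volume (ball y ε), ENNReal.add_ne_top.2
    ⟨ENNReal.mul_ne_top ENNReal.ofReal_ne_top hA,
      ENNReal.mul_ne_top ENNReal.ofReal_ne_top measure_ball_lt_top.ne⟩, fun F fi =>
    (setLIntegral_mono_ae' (g := fun u => ENNReal.ofReal (2 / c) *
      ENNReal.ofReal (normSq (G u - F u) * δ u) + ENNReal.ofReal (2 * B ^ 2)) measurableSet_ball
      (ae_of_all _ fun u hu => ?_)).trans ?_⟩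
  · obtain ⟨u1, u2, -⟩ := hε u hu
    rw [← ENNReal.ofReal_mul (by positivity)]
    refine le_trans (ENNReal.ofReal_le_ofReal ?_) ENNReal.ofReal_add_le
    have h7 : ‖F u‖ ≤ ‖G u‖ + ‖G u - F u‖ := norm_le_norm_add_norm_sub (G u) (F u)
    rw [normSq_eq_norm_sq (_ - _)]
    generalize ‖G u - F u‖ = t at h7 ⊢
    have h8 : 2 * t ^ 2 ≤ 2 / c * (t ^ 2 * δ u) := by
      rw [div_mul_eq_mul_div, le_div_iff₀ c0, mul_assoc]
      exact mul_le_mul_of_nonneg_left (mul_le_mul_of_nonneg_left u1.le (sq_nonneg _)) two_pos.le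
    have h9 := pow_le_pow_left₀ (norm_nonneg _) h7 2
    have h10 := pow_le_pow_left₀ (norm_nonneg _) u2.le 2
    nlinarith [sq_nonneg (‖G u‖ - t)]
  · rw [lintegral_add_right _ measurable_const, lintegral_const_mul' _ _ ENNReal.ofReal_ne_top,
      setLIntegral_const]
    exact add_le_add (mul_le_mul_right
      ((lintegral_mono_set fun u hu => (hε u hu).2.2).trans fi) _) le_rfl

variable (D O μ) in
/-- The equation is solved for the density `a⁻¹`. -/
def Sol (C : ℝ≥0∞) (ph β : M.X → ℝ) (Γ : M.X → ℂ) (a : M.X → ℝ≥0∞) : Prop :=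
  AEMeasurable a μ ∧ ∃ F : M.X → ℂ, (D.On O fun d z => HolN (D.rd F d) z) ∧
    ∫⁻ x, (a x)⁻¹ * ENNReal.ofReal (normSq (Γ x - F x) * Real.exp (-ph x)) ∂μ ≤
      C * ∫⁻ x, (a x)⁻¹ * ENNReal.ofReal (β x * Real.exp (-ph x)) ∂μ

variable {C : ℝ≥0∞} {ph β : M.X → ℝ} {Γ : M.X → ℂ}

omit [Fintype ι] [DecidableEq ι] in
theorem aem {F : Type} [TopologicalSpace F] [MeasurableSpace F] [BorelSpace F] {f : M.X → F}
    (hO : IsOpen O) (ae : ∀ᵐ x ∂μ, x ∈ O) (h : ContinuousOn f O) : AEMeasurable f μ := by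
  rw [← Measure.restrict_eq_self_of_ae_mem ae]
  exact h.aemeasurable hO.measurableSet

omit [DecidableEq ι] in
/-- The passage to a limit. -/
theorem lim [M.Cpt] (C1 : C ≠ ⊤) (hO : IsOpen O) (hs : O ⊆ off D) (hμ : IsEta D k m w μ)
    (wc : D.All fun b z => ContinuousAt (w b) z ∧ w b z ≠ 0) (ae : ∀ᵐ x ∂μ, x ∈ O)
    (c1 : ContinuousOn ph O) (c2 : ContinuousOn Γ O) (hβ : AEMeasurable β μ)
    {a : ℕ → M.X → ℝ≥0∞} {b lo : M.X → ℝ≥0∞} {U : M.X → ℝ} (h : ∀ i, Sol D O μ C ph β Γ (a i))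
    (cU : ContinuousOn U O) (up : ∀ i, ∀ x ∈ O, a i x ≤ ENNReal.ofReal (Real.exp (U x)))
    (dn : ∀ i, ∀ x ∈ O, lo x ≤ a i x)
    (fin : ∫⁻ x, (lo x)⁻¹ * ENNReal.ofReal (β x * Real.exp (-ph x)) ∂μ ≠ ⊤)
    (hb : ∀ x ∈ O, Tendsto (a · x) atTop (𝓝 (b x))) : Sol D O μ C ph β Γ b := by
  choose ma F hF hI using h
  have mp := (aem hO ae c1).neg.exp
  have le : ∀ i, ∀ᵐ x ∂μ, (a i x)⁻¹ * ENNReal.ofReal (β x * Real.exp (-ph x)) ≤
      (lo x)⁻¹ * ENNReal.ofReal (β x * Real.exp (-ph x)) := fun i =>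
    ae.mono fun x hx => mul_le_mul_left (ENNReal.inv_le_inv.2 (dn i x hx)) _
  obtain ⟨G, s, hs', hG, hl⟩ := mon hO hF fun d z hz hw => by
    have o := (off_symm D hz).1 (hs hw)
    have cs := (D.e d).continuousAt_symm (tg hz)
    have ev := on_ev hO hz hw
    obtain ⟨V, hV, B, hB, H⟩ := loc (G := D.rd Γ d) (δ := fun u => normSq (w d u) ^ (1 / m : ℝ) *
        xr (D.c d) (fun i => k i / m) u * (Real.exp (-D.rd U d u) * Real.exp (-D.rd ph d u)))
      ((((continuous_normSq.continuousAt.comp (wc d z hz).1).rpow_const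
        (Or.inr (by positivity))).mul (MON.cd_xr _ o).continuousAt).mul
        (((cU.continuousAt (hO.mem_nhds hw)).comp cs).neg.rexp.mul
          ((c1.continuousAt (hO.mem_nhds hw)).comp cs).neg.rexp))
      (mul_pos (mul_pos (Real.rpow_pos_of_pos (normSq_pos.2 (wc d z hz).2) _) (MON.xr_pos _ o))
        (by positivity)) ((c2.continuousAt (hO.mem_nhds hw)).comp cs) ev
      (ENNReal.mul_ne_top C1 fin)
    refine ⟨V, hV, B, hB, fun i => H _ (le_trans ?_ ((setLIntegral_le_lintegral (D.e d).source _).trans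
      ((hI i).trans (mul_le_mul_right (lintegral_mono_ae (le i)) _))))⟩
    rw [hμ d]
    refine (setLIntegral_mono_ae' (isOpen_iff_mem_nhds.2 fun y hy =>
      on_ev hO hy.1 hy.2).measurableSet (ae_of_all _ fun u hu => ?_)).trans
      (lintegral_mono_set fun u hu => hu.1)
    have e := ENNReal.inv_le_inv.2 (up i _ hu.2)
    rw [← ENNReal.ofReal_inv_of_pos (Real.exp_pos _), ← Real.exp_neg] at e
    refine le_trans (le_of_eq ?_) (mul_le_mul_right (mul_le_mul_left e _) _)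
    rw [← ENNReal.ofReal_mul (Real.exp_pos _).le, ← ENNReal.ofReal_mul (mul_nonneg
      (Real.rpow_nonneg (normSq_nonneg _) _) (MON.xr_pos _ ((off_symm D hu.1).1 (hs hu.2))).le)]
    refine congrArg _ ?_
    simp only [Ad.rd]
    ring
  have iv : ∀ x ∈ O, Tendsto (fun i => (a (s i) x)⁻¹) atTop (𝓝 (b x)⁻¹) := fun x hx =>
    tendsto_inv_iff.2 ((hb x hx).comp hs'.tendsto_atTop)
  refine ⟨aemeasurable_of_tendsto_metrizable_ae' ma (ae.mono hb), G, hG, ?_⟩
  have t1 := tendsto_lintegral_of_dominated_convergence' (μ := μ)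
    (F := fun i x => (a (s i) x)⁻¹ * ENNReal.ofReal (β x * Real.exp (-ph x)))
    (f := fun x => (b x)⁻¹ * ENNReal.ofReal (β x * Real.exp (-ph x))) _
    (fun i => (ma _).inv.mul (hβ.mul mp).ennreal_ofReal) (fun i => le _) fin
    (ae.mono fun x hx => ENNReal.Tendsto.mul_const (iv x hx) (Or.inr ENNReal.ofReal_ne_top))
  refine le_trans (lintegral_mono_ae (ae.mono fun x hx => ?_)) ((lintegral_liminf_le'
    (f := fun i x => (a (s i) x)⁻¹ *
      ENNReal.ofReal (normSq (Γ x - F (s i) x) * Real.exp (-ph x))) fun i => (ma _).inv.mul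
      ((aem hO ae (continuous_normSq.comp_continuousOn (c2.sub (cont_on fun d z hz hw =>
        (hF _ d z hz hw).self_of_nhds.continuousAt)))).mul mp).ennreal_ofReal).trans
    ((liminf_le_liminf (.of_forall fun i => hI (s i))).trans
      (ENNReal.Tendsto.const_mul t1 (Or.inr C1)).liminf_eq.le))
  by_cases h0 : ENNReal.ofReal (normSq (Γ x - G x) * Real.exp (-ph x)) = 0
  · rw [h0, mul_zero]
    exact zero_le
  · exact (ENNReal.Tendsto.mul (iv x hx) (Or.inr ENNReal.ofReal_ne_top) (ENNReal.tendsto_ofReal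
      (((continuous_normSq.tendsto _).comp ((hl x hx).const_sub (Γ x))).mul_const _))
      (Or.inl h0)).liminf_eq.ge

variable (D O) in
/-- Smooth and plurisubharmonic on `O`. -/
def Ps (u : M.X → ℝ) : Prop :=
  D.On O fun d z => ContDiffAt ℝ ∞ (D.rd u d) z ∧ ∀ v, 0 ≤ lv (D.rd u d) z v

omit [Fintype ι] [DecidableEq ι] in
theorem Ps.mul {u : M.X → ℝ} (h : Ps D O u) {c : ℝ} (hc : 0 ≤ c) : Ps D O fun x => c * u x :=
  fun d z hz hw => ⟨contDiffAt_const.mul (h d z hz hw).1, fun v =>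
    (mul_nonneg hc ((h d z hz hw).2 v)).trans_eq (lv_mul (h d z hz hw).1 c v).symm⟩

omit [Fintype ι] [DecidableEq ι] in
theorem Ps.lse {u u' : M.X → ℝ} (h : Ps D O u) (h' : Ps D O u') :
    Ps D O fun x => Real.log (Real.exp (u x) + Real.exp (u' x)) := fun d z hz hw =>
  ⟨((bLEV n z 0).2.1 _ _ (h d z hz hw).1 (h' d z hz hw).1 ((h d z hz hw).2 0)
    ((h' d z hz hw).2 0)).1, fun v => le_trans (mul_nonneg (by positivity) (normSq_nonneg _))
      (LEV.two36 (h d z hz hw).1 (h' d z hz hw).1 ((h d z hz hw).2 v) ((h' d z hz hw).2 v))⟩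

/-- The regularised maximum. -/
def mx (i : ℕ) (p q : ℝ) : ℝ :=
  1 / (i + 1) * Real.log (Real.exp ((i + 1) * p) + Real.exp ((i + 1) * q))

theorem mx_bd (i : ℕ) (p q : ℝ) : max p q ≤ mx i p q ∧ mx i p q ≤ max p q + 1 / (i + 1) := by
  have h : (0 : ℝ) < i + 1 := by positivity
  have e1 := Real.exp_pos ((i + 1) * p)
  have e2 := Real.exp_pos ((i + 1) * q)
  have a1 := Real.exp_le_exp.2 (mul_le_mul_of_nonneg_left (le_max_left p q) h.le)
  have a2 := Real.exp_le_exp.2 (mul_le_mul_of_nonneg_left (le_max_right p q) h.le)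
  rw [mx, one_div_mul_eq_div, le_div_iff₀' h, div_le_iff₀' h, Real.le_log_iff_exp_le (by positivity),
    Real.log_le_iff_le_exp (by positivity), mul_add, mul_one_div_cancel h.ne', Real.exp_add]
  refine ⟨?_, by nlinarith [Real.add_one_le_exp 1]⟩
  rcases max_choice p q with h | h <;> rw [h] <;> linarith

variable (D O) in
/-- A limit of exponentials of smooth plurisubharmonic functions. -/
def Ap (lo a : M.X → ℝ≥0∞) : Prop := ∃ (u : ℕ → M.X → ℝ) (U : M.X → ℝ), ContinuousOn U O ∧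
  (∀ i, Ps D O (u i)) ∧ ∀ x ∈ O, (∀ i, lo x ≤ ENNReal.ofReal (Real.exp (u i x)) ∧ u i x ≤ U x) ∧
    Tendsto (fun i => ENNReal.ofReal (Real.exp (u i x))) atTop (𝓝 (a x))

omit [Fintype ι] [DecidableEq ι] in
theorem Ap.sup {lo lo' a b : M.X → ℝ≥0∞} (h : Ap D O lo a) (h' : Ap D O lo' b) :
    Ap D O lo fun x => a x ⊔ b x := by
  obtain ⟨u, U, cU, pu, hu⟩ := h
  obtain ⟨v, V, cV, pv, hv⟩ := h'
  have mo : Monotone fun t => ENNReal.ofReal (Real.exp t) := fun _ _ h =>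
    ENNReal.ofReal_le_ofReal (Real.exp_le_exp.2 h)
  refine ⟨fun i x => mx i (u i x) (v i x), fun x => max (U x) (V x) + 1,
    (cU.sup cV).add continuousOn_const, fun i => (((pu i).mul (by positivity)).lse
      ((pv i).mul (by positivity))).mul (by positivity), fun x hx => ⟨fun i =>
    ⟨((hu x hx).1 i).1.trans (mo ((le_max_left _ _).trans (mx_bd i _ _).1)),
      (mx_bd i _ _).2.trans (add_le_add (max_le_max ((hu x hx).1 i).2 ((hv x hx).1 i).2)
        (div_le_one_of_le₀ (le_add_of_nonneg_left i.cast_nonneg) (by positivity)))⟩, ?_⟩⟩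
  have t := (hu x hx).2.max (hv x hx).2
  have t1 := ENNReal.Tendsto.mul t (Or.inr ENNReal.ofReal_ne_top) (ENNReal.tendsto_ofReal
    tendsto_one_div_add_atTop_nhds_zero_nat.rexp) (Or.inl (by simp))
  rw [Real.exp_zero, ENNReal.ofReal_one, mul_one] at t1
  refine tendsto_of_tendsto_of_tendsto_of_le_of_le t t1 (fun i => ?_) fun i => ?_
  · exact mo.map_max.ge.trans (mo (mx_bd i _ _).1)
  · refine (mo (mx_bd i _ _).2).trans_eq ?_
    beta_reduce
    rw [Real.exp_add, ENNReal.ofReal_mul (Real.exp_pos _).le]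
    exact congrArg (· * _) mo.map_max

omit [DecidableEq ι] in
theorem ap_ps {u : M.X → ℝ} (h : Ps D O u) :
    Ap D O (fun x => ENNReal.ofReal (Real.exp (u x))) fun x => ENNReal.ofReal (Real.exp (u x)) :=
  ⟨fun _ => u, u, cont_on fun d z hz hw => (h d z hz hw).1.continuousAt, fun _ => h,
    fun _ _ => ⟨fun _ => ⟨le_rfl, le_rfl⟩, tendsto_const_nhds⟩⟩

omit [DecidableEq ι] in
theorem ap_hol {g : M.X → ℂ} (h : D.On O fun d z => HolN (D.rd g d) z) {t : ℝ} (t0 : 0 ≤ t) :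
    Ap D O 0 fun x => ENNReal.ofReal (normSq (g x) ^ t) := by
  have p : ∀ x c, 0 < normSq (g x) + Real.exp c := fun x c =>
    add_pos_of_nonneg_of_pos (normSq_nonneg _) (Real.exp_pos _)
  refine ⟨fun i x => t * Real.log (normSq (g x) + Real.exp (-i)),
    fun x => t * Real.log (normSq (g x) + Real.exp 0), continuousOn_const.mul
      (((continuous_normSq.comp_continuousOn (cont_on fun d z hz hw =>
        (h d z hz hw).self_of_nhds.continuousAt)).add continuousOn_const).log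
        fun x _ => (p x 0).ne'), fun i => Ps.mul (u := fun x => Real.log (normSq (g x) + Real.exp (-i)))
      (fun d z hz hw => ⟨((bLEV n z 0).1 _ (fun _ => -i)
      (h d z hz hw) contDiffAt_const (lv_const _ _).ge).1, fun v => LEV.one36 (ψ := fun _ => -i)
        (h d z hz hw) contDiffAt_const (lv_const _ _).ge⟩) t0, fun x _ => ⟨fun i => ⟨zero_le,
    mul_le_mul_of_nonneg_left (Real.log_le_log (p x _) (add_le_add le_rfl (Real.exp_le_exp.2
      (neg_nonpos.2 i.cast_nonneg)))) t0⟩, ENNReal.tendsto_ofReal ?_⟩⟩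
  have t1 := ((Real.tendsto_exp_neg_atTop_nhds_zero.comp tendsto_natCast_atTop_atTop).const_add
    (normSq (g x))).rpow_const (p := t) (Or.inr t0)
  rw [add_zero] at t1
  exact t1.congr fun i => (Real.rpow_def_of_pos (p x (-i)) t).trans (congrArg _ (mul_comm _ _))

end Sg

open Sg in
omit [DecidableEq ι] in
/-- The theorem of Hörmander for the weight `limsup t i log |g i|²`, with the same constant. -/
theorem hqS [M.Cpt] {C : ℝ≥0∞} (C0 : C ≠ 0) (C1 : C ≠ ⊤) (hO : IsOpen O) (hs : O ⊆ off D)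
    (hμ : IsEta D k m w μ) (wc : D.All fun b z => ContinuousAt (w b) z ∧ w b z ≠ 0)
    (ae : ∀ᵐ x ∂μ, x ∈ O) (H : HqO C D μ O) {σ : M.X → ℝ} (hσ : Ps D O σ) {g : ℕ → M.X → ℂ}
    (hg : ∀ i, D.On O fun d z => HolN (D.rd (g i) d) z) {t : ℕ → ℝ} (t0 : ∀ i, 0 ≤ t i)
    (bd : ∀ i, ∀ x ∈ O, normSq (g i x) ^ t i ≤ Real.exp (σ x)) :
    (AEMeasurable (fun x => liminf (fun i => (ENNReal.ofReal (normSq (g i x) ^ t i))⁻¹) atTop) μ) ∧
    HqO C D (μ.withDensity fun x =>
      liminf (fun i => (ENNReal.ofReal (normSq (g i x) ^ t i))⁻¹) atTop) O := by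
  set e : ℕ → M.X → ℝ≥0∞ := fun i x => ENNReal.ofReal (normSq (g i x) ^ t i) with he
  set L : M.X → ℝ≥0∞ := fun x => ⨅ j, ⨆ i, e (i + j) x with hL
  have eq : (fun x => liminf (fun i => (ENNReal.ofReal (normSq (g i x) ^ t i))⁻¹) atTop) =
      fun x => (L x)⁻¹ := funext fun x => by
    rw [← ENNReal.inv_limsup, limsup_eq_iInf_iSup_of_nat']
  have cg : ∀ {f : M.X → ℂ}, (D.On O fun d z => HolN (D.rd f d) z) → ContinuousOn f O :=
    fun h => cont_on fun d z hz hw => (h d z hz hw).self_of_nhds.continuousAt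
  have mL : AEMeasurable L μ := .iInf fun j => .iSup fun i => (aem hO ae
    ((continuous_normSq.comp_continuousOn (cg (hg _))).rpow_const
      fun _ _ => Or.inr (t0 _))).ennreal_ofReal
  have b1 : ∀ j, ∀ x ∈ O, ⨆ i, e (i + j) x ≤ ENNReal.ofReal (Real.exp (σ x)) := fun j x hx =>
    iSup_le fun i => ENNReal.ofReal_le_ofReal (bd _ x hx)
  have b2 : ∀ x ∈ O, L x ≤ ENNReal.ofReal (Real.exp (σ x)) := fun x hx =>
    (iInf_le _ 0).trans (b1 0 x hx)
  rw [eq]
  refine ⟨mL.inv, fun ph β Γ hm h => ?_⟩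
  have hβ := hm.mono_ac (withDensity_absolutelyContinuous' mL.inv (ae.mono fun x hx =>
    ENNReal.inv_ne_zero.2 (ne_top_of_le_ne_top ENNReal.ofReal_ne_top (b2 x hx))))
  have c1 : ContinuousOn ph O := cont_on fun d z hz hw => (h d z hz hw).1.continuousAt
  have c2 : ContinuousOn Γ O := cont_on fun d z hz hw => (h d z hz hw).2.1.continuousAt
  have cσ : ContinuousOn σ O := cont_on fun d z hz hw => (hσ d z hz hw).1.continuousAt
  have mp := (aem hO ae c1).neg.exp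
  have wd : ∀ r : M.X → ℝ, AEMeasurable r μ → ∫⁻ x, ENNReal.ofReal (r x * Real.exp (-ph x))
      ∂(μ.withDensity fun x => (L x)⁻¹) =
      ∫⁻ x, (L x)⁻¹ * ENNReal.ofReal (r x * Real.exp (-ph x)) ∂μ := fun r hr =>
    lintegral_withDensity_eq_lintegral_mul₀ mL.inv (hr.mul mp).ennreal_ofReal
  rw [wd β hβ]
  by_cases fin : ∫⁻ x, (L x)⁻¹ * ENNReal.ofReal (β x * Real.exp (-ph x)) ∂μ = ⊤
  · refine ⟨0, fun d z _ _ => .of_forall fun y => differentiableAt_const (0 : ℂ), ?_⟩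
    rw [fin, ENNReal.mul_top C0]
    exact le_top
  let lo : ℕ → M.X → ℝ≥0∞ := fun N x => ENNReal.ofReal (Real.exp (σ x - N))
  have b3 : ∀ N x, lo N x ≤ ENNReal.ofReal (Real.exp (σ x)) := fun N x =>
    ENNReal.ofReal_le_ofReal (Real.exp_le_exp.2 (sub_le_self _ N.cast_nonneg))
  have fn : ∀ N, ∫⁻ x, (lo N x)⁻¹ * ENNReal.ofReal (β x * Real.exp (-ph x)) ∂μ ≠ ⊤ := fun N => by
    refine ne_top_of_le_ne_top (ENNReal.mul_ne_top (ENNReal.ofReal_ne_top (r := Real.exp N)) fin) ?_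
    rw [← lintegral_const_mul' _ _ ENNReal.ofReal_ne_top]
    refine lintegral_mono_ae (ae.mono fun x hx => ?_)
    rw [← mul_assoc]
    refine mul_le_mul_left (le_trans (le_of_eq ?_)
      (mul_le_mul_right (ENNReal.inv_le_inv.2 (b2 x hx)) _)) _
    rw [← ENNReal.ofReal_inv_of_pos (Real.exp_pos _), ← ENNReal.ofReal_inv_of_pos (Real.exp_pos _),
      ← ENNReal.ofReal_mul (Real.exp_pos _).le, Real.exp_sub, inv_div, div_eq_mul_inv]
  have s0 : ∀ u, Ps D O u → Sol D O μ C ph β Γ fun x => ENNReal.ofReal (Real.exp (u x)) := by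
    intro u hu
    obtain ⟨F, f1, f2⟩ := H (fun x => ph x + u x) β Γ hβ fun d z hz hw => by
      obtain ⟨a1, a2, a3, a4, a5⟩ := h d z hz hw
      obtain ⟨u1, u2⟩ := hu d z hz hw
      have l : ∀ v, lv (D.rd ph d) z v ≤ lv (D.rd (fun x => ph x + u x) d) z v := fun v =>
        (le_add_of_nonneg_right (u2 v)).trans_eq (lv_add a1 u1 v).symm
      exact ⟨a1.add u1, a2, fun v => (a3 v).trans (l v), a4,
        fun v => (a5 v).trans (mul_le_mul_of_nonneg_left (l v) a4)⟩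
    have cv : ∀ x r, (ENNReal.ofReal (Real.exp (u x)))⁻¹ * ENNReal.ofReal (r * Real.exp (-ph x)) =
        ENNReal.ofReal (r * Real.exp (-(ph x + u x))) := fun x r => by
      rw [← ENNReal.ofReal_inv_of_pos (Real.exp_pos _), ← Real.exp_neg,
        ← ENNReal.ofReal_mul (Real.exp_pos _).le, neg_add, Real.exp_add]
      exact congrArg _ (by ring)
    refine ⟨(aem hO ae (cont_on fun d z hz hw =>
      (hu d z hz hw).1.continuousAt)).exp.ennreal_ofReal, F, f1, ?_⟩
    simpa only [cv] using f2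
  have a1 : ∀ j l, Ap D O 0 fun x => partialSups (fun i => e (i + j) x) l := fun j l => by
    induction l with
    | zero => exact ap_hol (hg _) (t0 _)
    | succ l ih => simpa only [partialSups_add_one] using ih.sup (ap_hol (hg _) (t0 (l + 1 + j)))
  have s1 : ∀ N j l, Sol D O μ C ph β Γ fun x => lo N x ⊔ partialSups (fun i => e (i + j) x) l := by
    intro N j l
    obtain ⟨u, U, cU, pu, hu⟩ := (ap_ps (u := fun x => σ x - N) fun d z hz hw =>
      ⟨(hσ d z hz hw).1.sub contDiffAt_const, fun v => ((hσ d z hz hw).2 v).trans_eq (by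
        rw [← sub_zero (lv _ z v), ← lv_const N v]
        exact (lv_sub (hσ d z hz hw).1 contDiffAt_const v).symm)⟩).sup (a1 j l)
    exact lim C1 hO hs hμ wc ae c1 c2 hβ (fun i => s0 _ (pu i)) cU
      (fun i x hx => ENNReal.ofReal_le_ofReal (Real.exp_le_exp.2 ((hu x hx).1 i).2))
      (fun i x hx => ((hu x hx).1 i).1) (fn N) fun x hx => (hu x hx).2
  have s2 : ∀ N j, Sol D O μ C ph β Γ fun x => lo N x ⊔ ⨆ i, e (i + j) x := fun N j =>
    lim C1 hO hs hμ wc ae c1 c2 hβ (s1 N j) cσ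
      (fun l x hx => sup_le (b3 N x) ((partialSups_le _ _ _ fun i _ => le_iSup _ i).trans
        (b1 j x hx))) (fun _ _ _ => le_sup_left) (fn N) fun x _ => tendsto_const_nhds.max
      (iSup_partialSups_eq (fun i => e (i + j) x) ▸ tendsto_atTop_iSup (partialSups _).monotone)
  have s3 : ∀ N, Sol D O μ C ph β Γ fun x => lo N x ⊔ L x := fun N =>
    lim C1 hO hs hμ wc ae c1 c2 hβ (s2 N) cσ (fun j x hx => sup_le (b3 N x) (b1 j x hx))
      (fun _ _ _ => le_sup_left) (fn N) fun x _ => tendsto_const_nhds.max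
      (tendsto_atTop_iInf (antitone_nat_of_succ_le fun j => iSup_le fun i =>
        le_iSup_of_le (i + 1) (by rw [add_assoc, add_comm 1])))
  obtain ⟨-, F, f1, f2⟩ := lim (b := L) C1 hO hs hμ wc ae c1 c2 hβ s3 cσ
    (fun N x hx => sup_le (b3 N x) (b2 x hx)) (fun _ _ _ => le_sup_right) fin fun x _ => by
      have t1 := (ENNReal.tendsto_ofReal (Real.tendsto_exp_atBot.comp
        (tendsto_atBot_add_const_left _ (σ x) (tendsto_neg_atTop_atBot.comp
          tendsto_natCast_atTop_atTop)))).max (tendsto_const_nhds (x := L x))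
      rwa [ENNReal.ofReal_zero, max_eq_right zero_le] at t1
  exact ⟨F, f1, (wd _ (aem hO ae
    (continuous_normSq.comp_continuousOn (c2.sub (cg f1))))).trans_le f2⟩

end Pool.Agent.Lib.ZQ
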